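import Pool.Agent.H104R3.EG.Stmts
import Pool.Agent.Helper835.GraphEnc

set_option autoImplicit false

/-! Task GraphR of project EG: from a rigid system to a graph. -/

namespace Pool.Agent.H245R3.EGGraph

open Pool.Agent.H104R3.EG Pool.Agent.Helper835.GraphEnc

/-- the encoding theorem for the graph `enc Q` -/
theorem enc_aut {V : Type} [Finite V] {G : Type} [Group G] (Q : Fin 5 → Fin 5 → V → V → Prop)
    (hV : 5 < Nat.card V) (φ : G →* Equiv.Perm V) (hinj : Function.Injective φ)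
    (hQ : ∀ g a b v w, Q a b (φ g v) (φ g w) ↔ Q a b v w)
    (hfull : ∀ σ : Equiv.Perm V,
      (∀ a b : Fin 5, a ≠ 0 → a < b → ∀ v w, Q a b (σ v) (σ w) ↔ Q a b v w) →
      ∃ g : G, φ g = σ) : Nonempty ((enc Q ≃g enc Q) ≃* G) := by
  classical
  let F : G → (enc Q ≃g enc Q) := fun g =>
    { toEquiv := Equiv.sumCongr (Equiv.prodCongr (φ g) (Equiv.refl _)) (Equiv.refl _)
      map_rel_iff' := by
        rintro (⟨v, a⟩ | a) (⟨w, b⟩ | b)
        · change (enc Q).Adj (Sum.inl (φ g v, a)) (Sum.inl (φ g w, b)) ↔ _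
          rw [enc_ll, enc_ll, hQ, hQ, (φ g).injective.eq_iff, (φ g).injective.eq_iff]
        · exact Iff.rfl
        · exact Iff.rfl
        · exact Iff.rfl }
  have hF1 : ∀ g v b, F g (Sum.inl (v, b)) = Sum.inl (φ g v, b) := fun _ _ _ => rfl
  have hF2 : ∀ g a, F g (Sum.inr a) = Sum.inr a := fun _ _ => rfl
  let Φ : G →* (enc Q ≃g enc Q) :=
    { toFun := F
      map_one' := by
        ext (⟨v, b⟩ | a)
        · rw [hF1, map_one]; rfl
        · rfl
      map_mul' := by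
        intro g h
        ext (⟨v, b⟩ | a)
        · rw [hF1, map_mul]; rfl
        · rfl }
  have hΦinj : Function.Injective Φ := by
    intro g h hgh
    apply hinj
    ext v
    have h1 : F g (Sum.inl (v, 0)) = F h (Sum.inl (v, 0)) :=
      congrFun (congrArg DFunLike.coe hgh) _
    rw [hF1, hF1] at h1
    simpa using h1
  have hΦsurj : Function.Surjective Φ := by
    intro f
    obtain ⟨σ, h1, h2, h3⟩ := aut_form Q hV f
    obtain ⟨g, hg⟩ := hfull σ h3
    refine ⟨g, ?_⟩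
    ext (⟨v, b⟩ | a)
    · change F g (Sum.inl (v, b)) = _
      rw [hF1, h1, hg]
    · change F g (Sum.inr a) = _
      rw [hF2, h2]
  exact ⟨(MulEquiv.ofBijective Φ ⟨hΦinj, hΦsurj⟩).symm⟩

section sys

variable {G : Type} [Group G] (S : Sys G)

/-- the vertex set -/
abbrev Vt : Type := Σ i : S.ι, G ⧸ S.K i

/-- the action of `G` -/
def act : G →* Equiv.Perm (Vt S) where
  toFun g :=
    { toFun := fun v => ⟨v.1, g • v.2⟩
      invFun := fun v => ⟨v.1, g⁻¹ • v.2⟩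
      left_inv := by rintro ⟨i, x⟩; simp
      right_inv := by rintro ⟨i, x⟩; simp }
  map_one' := by
    ext ⟨i, x⟩ <;> simp
  map_mul' g h := by
    ext ⟨i, x⟩
    · rfl
    · simp [mul_smul]

theorem act_apply (g x : G) (i : S.ι) :
    act S g ⟨i, (x : G ⧸ S.K i)⟩ = ⟨i, ((g * x : G) : G ⧸ S.K i)⟩ := rfl

/-- the two self maps -/
def Fm (e : Fin 2) (v : Vt S) : Vt S :=
  ⟨S.nx e v.1, Quotient.map' (fun k => k * S.el e v.1) (by
    intro a b hab
    rw [QuotientGroup.leftRel_apply] at hab ⊢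
    have h := S.cond e v.1 _ hab
    have e1 : (a * S.el e v.1)⁻¹ * (b * S.el e v.1) = (S.el e v.1)⁻¹ * (a⁻¹ * b) * S.el e v.1 := by
      group
    rw [e1]
    exact h) v.2⟩

theorem Fm_apply (e : Fin 2) (i : S.ι) (k : G) :
    Fm S e ⟨i, (k : G ⧸ S.K i)⟩ = ⟨S.nx e i, ((k * S.el e i : G) : G ⧸ S.K (S.nx e i))⟩ := rfl

theorem Fm_act (e : Fin 2) (g : G) (v : Vt S) : Fm S e (act S g v) = act S g (Fm S e v) := by
  obtain ⟨i, q⟩ := v
  induction q using QuotientGroup.induction_on with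
  | H k => rw [act_apply, Fm_apply, Fm_apply, act_apply, mul_assoc]

variable {S}

theorem sigma_eq' {i : S.ι} {x y : G} (h : (⟨i, (x : G ⧸ S.K i)⟩ : Vt S) = ⟨i, (y : G ⧸ S.K i)⟩) :
    x⁻¹ * y ∈ S.K i := QuotientGroup.eq.1 (eq_of_heq (Sigma.mk.inj_iff.1 h).2)

theorem sigma_eq_of {i : S.ι} {x y : G} (h : x⁻¹ * y ∈ S.K i) :
    (⟨i, (x : G ⧸ S.K i)⟩ : Vt S) = ⟨i, (y : G ⧸ S.K i)⟩ := by
  rw [QuotientGroup.eq.2 h]

variable (S)

/-- the relations -/
def Q (a b : Fin 5) (v w : Vt S) : Prop :=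
  (a = 1 ∧ b = 2 ∧ w = Fm S 0 v) ∨ (a = 1 ∧ b = 3 ∧ w = Fm S 1 v) ∨
    (a = 1 ∧ b = 4 ∧ w = v ∧ v.1 = S.root)

theorem Q_inv (g : G) (a b : Fin 5) (v w : Vt S) :
    Q S a b (act S g v) (act S g w) ↔ Q S a b v w := by
  unfold Q
  rw [Fm_act, Fm_act, (act S g).injective.eq_iff, (act S g).injective.eq_iff,
    (act S g).injective.eq_iff]
  exact Iff.rfl

theorem act_inj : Function.Injective (act S) := by
  intro g h hgh
  have h1 : act S g ⟨S.root, ((1 : G) : G ⧸ S.K S.root)⟩ =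
      act S h ⟨S.root, ((1 : G) : G ⧸ S.K S.root)⟩ := by rw [hgh]
  rw [act_apply, act_apply, mul_one, mul_one] at h1
  have h2 := sigma_eq' h1
  rw [S.root_bot, Subgroup.mem_bot, inv_mul_eq_one] at h2
  exact h2

theorem full (hrig : ∀ α : G → G, S.Aut α → ∀ x, Comm α x) (σ : Equiv.Perm (Vt S))
    (hσ : ∀ a b : Fin 5, a ≠ 0 → a < b → ∀ v w, Q S a b (σ v) (σ w) ↔ Q S a b v w) :
    ∃ g : G, act S g = σ := by
  have hF0 : ∀ v, σ (Fm S 0 v) = Fm S 0 (σ v) := by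
    intro v
    have h := (hσ 1 2 (by decide) (by decide) v (Fm S 0 v)).2 (Or.inl ⟨rfl, rfl, rfl⟩)
    rcases h with ⟨_, _, h⟩ | ⟨_, h, _⟩ | ⟨_, h, _⟩
    · exact h
    · exact absurd h (by decide)
    · exact absurd h (by decide)
  have hF1 : ∀ v, σ (Fm S 1 v) = Fm S 1 (σ v) := by
    intro v
    have h := (hσ 1 3 (by decide) (by decide) v (Fm S 1 v)).2 (Or.inr (Or.inl ⟨rfl, rfl, rfl⟩))
    rcases h with ⟨_, h, _⟩ | ⟨_, _, h⟩ | ⟨_, h, _⟩
    · exact absurd h (by decide)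
    · exact h
    · exact absurd h (by decide)
  have hF : ∀ e v, σ (Fm S e v) = Fm S e (σ v) := by
    intro e v
    fin_cases e
    · exact hF0 v
    · exact hF1 v
  have hroot : ∀ v : Vt S, v.1 = S.root → (σ v).1 = S.root := by
    intro v hv
    have h := (hσ 1 4 (by decide) (by decide) v v).2 (Or.inr (Or.inr ⟨rfl, rfl, rfl, hv⟩))
    rcases h with ⟨_, h, _⟩ | ⟨_, h, _⟩ | ⟨_, _, _, h⟩
    · exact absurd h (by decide)
    · exact absurd h (by decide)
    · exact h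
  have hα : ∀ k : G, ∃ k' : G, σ ⟨S.root, (k : G ⧸ S.K S.root)⟩ =
      ⟨S.root, (k' : G ⧸ S.K S.root)⟩ := by
    intro k
    have h := hroot ⟨S.root, (k : G ⧸ S.K S.root)⟩ rfl
    rcases hv : σ ⟨S.root, (k : G ⧸ S.K S.root)⟩ with ⟨i, q⟩
    rw [hv] at h
    simp only at h
    subst h
    induction q using QuotientGroup.induction_on with
    | H k' => exact ⟨k', rfl⟩
  choose α hα using hα
  have hreach : ∀ i g, Reach S.nx S.el S.root i g → ∀ k,
      σ ⟨i, ((k * g : G) : G ⧸ S.K i)⟩ = ⟨i, ((α k * g : G) : G ⧸ S.K i)⟩ := by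
    intro i g h
    induction h with
    | base => intro k; rw [mul_one, mul_one]; exact hα k
    | step e i g _ ih =>
      intro k
      rw [← mul_assoc, ← mul_assoc, ← Fm_apply, ← Fm_apply, hF, ih]
  have haut : S.Aut α := by
    intro i g g' hg hg' k k' hk
    have h1 := sigma_eq_of hk
    have h2 := congrArg σ h1
    rw [hreach i g hg, hreach i g' hg'] at h2
    exact sigma_eq' h2
  have hcomm : ∀ k, α k = α 1 * k := by
    intro k
    have := hrig α haut k 1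
    rwa [one_mul] at this
  refine ⟨α 1, ?_⟩
  apply Equiv.ext
  rintro ⟨i, q⟩
  induction q using QuotientGroup.induction_on with
  | H h =>
    obtain ⟨g, hg⟩ := S.reach i
    have h1 := hreach i g hg (h * g⁻¹)
    rw [inv_mul_cancel_right, hcomm (h * g⁻¹), mul_assoc, inv_mul_cancel_right] at h1
    rw [act_apply, h1]

/-- the kinds of edges at a vertex -/
abbrev Kind : Type := Fin 4 ⊕ Fin 3 ⊕ {p : Fin 5 × Fin 5 // p.1 ≤ p.2}

theorem card_kind : Nat.card Kind = 22 := by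
  rw [Nat.card_eq_fintype_card]
  decide

/-- the edges -/
def edg : Vt S × Kind → Sym2 ((Vt S × Fin 5) ⊕ Fin 5)
  | (v, Sum.inl b) => s(Sum.inl (v, 0), Sum.inl (v, b.succ))
  | (v, Sum.inr (Sum.inl c)) =>
      if c = 0 then s(Sum.inl (v, 1), Sum.inl (Fm S 0 v, 2))
      else if c = 1 then s(Sum.inl (v, 1), Sum.inl (Fm S 1 v, 3))
      else s(Sum.inl (v, 1), Sum.inl (v, 4))
  | (v, Sum.inr (Sum.inr p)) => s(Sum.inl (v, p.1.1), Sum.inr p.1.2)

theorem cover_ll (v w : Vt S) (a b : Fin 5)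
    (h : a < b ∧ ((a = 0 ∧ v = w) ∨ (a ≠ 0 ∧ Q S a b v w))) :
    ∃ t, edg S t = s(Sum.inl (v, a), Sum.inl (w, b)) := by
  obtain ⟨hab, h | ⟨_, h⟩⟩ := h
  · obtain ⟨rfl, rfl⟩ := h
    have hb : b ≠ 0 := (Fin.pos_iff_ne_zero.1 hab)
    obtain ⟨c, rfl⟩ := Fin.exists_succ_eq.2 hb
    exact ⟨(v, Sum.inl c), rfl⟩
  · rcases h with ⟨rfl, rfl, rfl⟩ | ⟨rfl, rfl, rfl⟩ | ⟨rfl, rfl, rfl, _⟩
    · exact ⟨(v, Sum.inr (Sum.inl 0)), rfl⟩
    · exact ⟨(v, Sum.inr (Sum.inl 1)), rfl⟩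
    · exact ⟨(w, Sum.inr (Sum.inl 2)), rfl⟩

theorem cover (x y : (Vt S × Fin 5) ⊕ Fin 5) (h : (enc (Q S)).Adj x y) :
    ∃ t, edg S t = s(x, y) := by
  rcases x with ⟨v, a⟩ | a <;> rcases y with ⟨w, b⟩ | b
  · rw [enc_ll] at h
    rcases h with h | h
    · exact cover_ll S v w a b h
    · obtain ⟨t, ht⟩ := cover_ll S w v b a h
      exact ⟨t, by rw [ht, Sym2.eq_swap]⟩
  · rw [enc_lr] at h
    exact ⟨(v, Sum.inr (Sum.inr ⟨(a, b), h⟩)), rfl⟩
  · rw [enc_rl] at h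
    exact ⟨(w, Sum.inr (Sum.inr ⟨(b, a), h⟩)), Sym2.eq_swap⟩
  · exact absurd h (enc_rr _ _ _)

theorem edges_le [Finite G] : Nat.card (enc (Q S)).edgeSet ≤ 22 * Nat.card (Vt S) := by
  classical
  have := S.fin
  have hfin : Finite (Vt S) := inferInstance
  have hc : ∀ e : (enc (Q S)).edgeSet, ∃ t, edg S t = e.1 := by
    rintro ⟨e, he⟩
    induction e using Sym2.ind with
    | h x y => exact cover S x y ((SimpleGraph.mem_edgeSet _).1 he)
  choose f hf using hc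
  have hinj : Function.Injective f := by
    intro e e' h
    apply Subtype.ext
    rw [← hf e, ← hf e', h]
  have h1 := Nat.card_le_card_of_injective f hinj
  rw [Nat.card_prod, card_kind, mul_comm] at h1
  exact h1

end sys

theorem graphR : GraphR := by
  intro G _ _ n hrig
  obtain ⟨S, hn, hrig⟩ := hrig
  have := S.fin
  have hfin : Finite (Vt S) := inferInstance
  have hV : 5 < Nat.card (Vt S) := by
    have h1 : Nat.card S.ι ≤ Nat.card (Vt S) :=
      Nat.card_le_card_of_injective (fun i => (⟨i, ((1 : G) : G ⧸ S.K i)⟩ : Vt S))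
        (fun i j h => congrArg Sigma.fst h)
    have := S.big
    omega
  refine ⟨(Vt S × Fin 5) ⊕ Fin 5, inferInstance, enc (Q S), ?_, ?_⟩
  · exact enc_aut (Q S) hV (act S) (act_inj S) (Q_inv S) (full S hrig)
  · exact (edges_le S).trans (Nat.mul_le_mul_left _ hn)

end Pool.Agent.H245R3.EGGraph
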