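import Pool.Agent.H203R4.DF.Stmts

set_option autoImplicit false

namespace Pool.Agent.H245R3.DFCx

open Pool.Agent.H203R4.DF

universe u

variable {G : Type u}

/-- The tuple `(g, y)`. -/
def pr (k : ℕ) (g : G) (y : SS G k) : SS G (k + 1) := (g, y)

/-- The join with `g` on point masses. -/
lemma jn_dl (k : ℕ) (g : G) (y : SS G k) : jn G k g (dl y) = dl (pr k g y) :=
  ext_dl (fun y => dl (pr k g y)) ⟨1, fun _ => (norm_dl _).le⟩ y

lemma norm_jn_le (k : ℕ) (g : G) (f : L (SS G k)) : ‖jn G k g f‖ ≤ ‖f‖ := by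
  have h := norm_ext_apply_le (fun y => (dl (pr k g y) : L (SS G (k + 1)))) 1
    (fun _ => (norm_dl _).le) f
  rwa [one_mul] at h

lemma norm_bdv_le (k : ℕ) : ∀ x : SS G (k + 1), ‖bdv G k x‖ ≤ (k : ℝ) + 1 := by
  induction k with
  | zero =>
    intro x
    have h : ‖bdv G 0 x‖ = 1 := norm_dl _
    rw [h]
    simp
  | succ k ih =>
    intro x
    have h : bdv G (k + 1) x = dl x.2 - jn G k x.1 (bdv G k x.2) := rfl
    rw [h]
    have h1 : ‖(dl x.2 : L (SS G (k + 1)))‖ = 1 := norm_dl _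
    have h2 := norm_jn_le k x.1 (bdv G k x.2)
    have h3 := ih x.2
    have h4 := norm_sub_le (dl x.2 : L (SS G (k + 1))) (jn G k x.1 (bdv G k x.2))
    push_cast
    linarith

lemma bd_dl (k : ℕ) (x : SS G (k + 1)) : bd G k (dl x) = bdv G k x :=
  ext_dl (bdv G k) ⟨(k : ℝ) + 1, norm_bdv_le k⟩ x

lemma bd_zero_jn (g : G) (f : L (SS G 0)) : bd G 0 (jn G 0 g f) = f := by
  have h : (bd G 0).comp (jn G 0 g) = ContinuousLinearMap.id ℂ (L (SS G 0)) := by
    refine clm_ext fun s => ?_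
    rw [ContinuousLinearMap.comp_apply, jn_dl, bd_dl]
    rfl
  have h2 := DFunLike.congr_fun h f
  exact h2

lemma bd_succ_jn (k : ℕ) (g : G) (f : L (SS G (k + 1))) :
    bd G (k + 1) (jn G (k + 1) g f) = f - jn G k g (bd G k f) := by
  have h : (bd G (k + 1)).comp (jn G (k + 1) g) =
      ContinuousLinearMap.id ℂ (L (SS G (k + 1))) - (jn G k g).comp (bd G k) := by
    refine clm_ext fun s => ?_
    rw [ContinuousLinearMap.comp_apply, jn_dl, bd_dl, ContinuousLinearMap.sub_apply,
      ContinuousLinearMap.comp_apply, bd_dl]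
    rfl
  have h2 := DFunLike.congr_fun h f
  exact h2

lemma bd_bdv (k : ℕ) : ∀ x : SS G (k + 2), bd G k (bdv G (k + 1) x) = 0 := by
  induction k with
  | zero =>
    intro x
    have h : bdv G (0 + 1) x = dl x.2 - jn G 0 x.1 (bdv G 0 x.2) := rfl
    rw [h, map_sub, bd_dl, bd_zero_jn, sub_self]
  | succ k ih =>
    intro x
    have h : bdv G (k + 1 + 1) x = dl x.2 - jn G (k + 1) x.1 (bdv G (k + 1) x.2) := rfl
    rw [h, map_sub, bd_dl, bd_succ_jn, ih x.2, map_zero, sub_zero, sub_self]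

lemma bd_bd (k : ℕ) (f : L (SS G (k + 2))) : bd G k (bd G (k + 1) f) = 0 := by
  have h : (bd G k).comp (bd G (k + 1)) = 0 := by
    refine clm_ext fun s => ?_
    rw [ContinuousLinearMap.comp_apply, bd_dl, bd_bdv]
    rfl
  have h2 := DFunLike.congr_fun h f
  exact h2

lemma rho_jn [Group G] (k : ℕ) (g h : G) (f : L (SS G k)) :
    rho g (jn G k h f) = jn G k (g * h) (rho g f) := by
  have e : (rho g : L (SS G (k + 1)) →L[ℂ] L (SS G (k + 1))).comp (jn G k h) =
      (jn G k (g * h)).comp (rho g) := by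
    refine clm_ext fun s => ?_
    rw [ContinuousLinearMap.comp_apply, ContinuousLinearMap.comp_apply, jn_dl, rho_dl, rho_dl,
      jn_dl]
    rfl
  have h2 := DFunLike.congr_fun e f
  exact h2

lemma bdv_smul [Group G] (k : ℕ) (g : G) :
    ∀ x : SS G (k + 1), bdv G k (g • x) = rho g (bdv G k x) := by
  induction k with
  | zero =>
    intro x
    have h : bdv G 0 x = dl x.2 := rfl
    have h' : bdv G 0 (g • x) = dl (g • x.2) := rfl
    rw [h, h', rho_dl]
  | succ k ih =>
    intro x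
    have h : bdv G (k + 1) x = dl x.2 - jn G k x.1 (bdv G k x.2) := rfl
    have h' : bdv G (k + 1) (g • x) = dl (g • x.2) - jn G k (g * x.1) (bdv G k (g • x.2)) := rfl
    rw [h, h', map_sub, rho_dl, ih x.2, rho_jn]

lemma bd_rho [Group G] (k : ℕ) (g : G) (f : L (SS G (k + 1))) :
    bd G k (rho g f) = rho g (bd G k f) := by
  have e : (bd G k).comp (rho g) = (rho g : L (SS G k) →L[ℂ] L (SS G k)).comp (bd G k) := by
    refine clm_ext fun s => ?_
    rw [ContinuousLinearMap.comp_apply, ContinuousLinearMap.comp_apply, rho_dl, bd_dl, bd_dl,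
      bdv_smul]
  have h2 := DFunLike.congr_fun e f
  exact h2

/-- The complex of tuples: contracting homotopy, `∂ ∂ = 0` and equivariance. -/
theorem taskComplex : Pool.Agent.H203R4.DF.TaskComplex.{u} := by
  intro G _
  refine ⟨fun f => bd_zero_jn 1 f, fun k f => ?_, fun k f => bd_bd k f, fun k g f => bd_rho k g f⟩
  rw [bd_succ_jn, sub_add_cancel]

end Pool.Agent.H245R3.DFCx
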