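import Pool.Agent.H33R3.Bom.Stmts

set_option autoImplicit false

namespace Pool.Agent.H245R3.BomE2

open Complex Metric Set Filter Topology
open Pool.Agent.H33R3.Bom

/-- the odd part of the logarithmic series -/
noncomputable def fo (x : ℝ) (k : ℕ) : ℝ := if Odd k then x ^ k / (k : ℝ) else 0

set_option maxHeartbeats 400000 in
/-- sum of the odd part of the logarithmic series -/
lemma odd_log' {x : ℝ} (h0 : 0 ≤ x) (h1 : x < 1) :
    HasSum (fo x) ((Real.log (1 + x) - Real.log (1 - x)) / 2) := by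
  have h := Real.hasSum_log_sub_log_of_abs_lt_one (x := x) (by rw [abs_of_nonneg h0]; exact h1)
  have h2 := h.mul_left (1 / 2 : ℝ)
  have he : HasSum (fun k : ℕ => fo x (2 * k)) 0 := by
    have e : (fun k : ℕ => fo x (2 * k)) = fun _ => 0 := by
      funext k
      unfold fo
      rw [if_neg]
      intro h
      obtain ⟨m, hm⟩ := h
      omega
    rw [e]
    exact hasSum_zero
  have e2 : (fun k : ℕ => fo x (2 * k + 1)) =
      fun k : ℕ => (1 / 2 : ℝ) * ((2 : ℝ) * (1 / (2 * k + 1)) * x ^ (2 * k + 1)) := by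
    funext k
    unfold fo
    rw [if_pos ⟨k, rfl⟩]
    push_cast
    ring
  have ho : HasSum (fun k : ℕ => fo x (2 * k + 1))
      ((1 / 2 : ℝ) * (Real.log (1 + x) - Real.log (1 - x))) := by
    rw [e2]
    exact h2
  have h3 := HasSum.even_add_odd he ho
  have e3 : (Real.log (1 + x) - Real.log (1 - x)) / 2 =
      0 + (1 / 2 : ℝ) * (Real.log (1 + x) - Real.log (1 - x)) := by ring
  rw [e3]
  exact h3

lemma odd_log {x : ℝ} (h0 : 0 ≤ x) (h1 : x < 1) :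
    HasSum (fun k : ℕ => if Odd k then x ^ k / (k : ℝ) else 0)
      ((Real.log (1 + x) - Real.log (1 - x)) / 2) := odd_log' h0 h1

set_option maxHeartbeats 400000 in
lemma summ (ζ : ℂ) (hζ : ‖ζ‖ < 1) (p : ℂ → ℝ) (hp : ∀ w, p w ^ 2 ≤ ‖w‖ ^ 2) :
    Summable (fun k : ℕ => if Odd k then p (ζ ^ k) ^ 2 / (k : ℝ) else 0) := by
  have h0 : 0 ≤ ‖ζ‖ ^ 2 := by positivity
  have h1 : ‖ζ‖ ^ 2 < 1 := by
    have := norm_nonneg ζ
    nlinarith
  apply Summable.of_nonneg_of_le (g := fun k : ℕ => if Odd k then p (ζ ^ k) ^ 2 / (k : ℝ) else 0)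
    (f := fun k : ℕ => if Odd k then (‖ζ‖ ^ 2) ^ k / (k : ℝ) else 0) _ _ (odd_log h0 h1).summable
  · intro k
    split_ifs
    · positivity
    · exact le_refl _
  · intro k
    split_ifs
    · apply div_le_div_of_nonneg_right _ (Nat.cast_nonneg k)
      have := hp (ζ ^ k)
      rw [norm_pow] at this
      calc p (ζ ^ k) ^ 2 ≤ (‖ζ‖ ^ k) ^ 2 := this
        _ = (‖ζ‖ ^ 2) ^ k := by rw [← pow_mul, ← pow_mul, mul_comm]
    · exact le_refl _

set_option maxHeartbeats 400000 in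
lemma sum_both (ζ : ℂ) (hζ : ‖ζ‖ < 1) :
    (∑' k : ℕ, if Odd k then (ζ ^ k).re ^ 2 / (k : ℝ) else 0) +
      (∑' k : ℕ, if Odd k then (ζ ^ k).im ^ 2 / (k : ℝ) else 0) =
      (Real.log (1 + ‖ζ‖ ^ 2) - Real.log (1 - ‖ζ‖ ^ 2)) / 2 := by
  have h0 : 0 ≤ ‖ζ‖ ^ 2 := by positivity
  have h1 : ‖ζ‖ ^ 2 < 1 := by
    have := norm_nonneg ζ
    nlinarith
  have hs1 := summ ζ hζ Complex.re (fun w => by
    rw [← Complex.normSq_eq_norm_sq, Complex.normSq_apply]; nlinarith [mul_self_nonneg w.im])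
  have hs2 := summ ζ hζ Complex.im (fun w => by
    rw [← Complex.normSq_eq_norm_sq, Complex.normSq_apply]; nlinarith [mul_self_nonneg w.re])
  rw [← hs1.tsum_add hs2, ← (odd_log h0 h1).tsum_eq]
  apply tsum_congr
  intro k
  split_ifs
  · rw [← add_div]
    congr 1
    have : (ζ ^ k).re ^ 2 + (ζ ^ k).im ^ 2 = ‖ζ ^ k‖ ^ 2 := by
      rw [← Complex.normSq_eq_norm_sq, Complex.normSq_apply]; ring
    rw [this, norm_pow, ← pow_mul, ← pow_mul, mul_comm]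
  · simp

lemma logE {Y A : ℂ → ℂ} {ζ z : ℂ} (h : LogFor Y ζ A) (hz : z ∈ ball (0 : ℂ) 1)
    (hz0 : z ≠ 0) (hζ0 : ζ ≠ 0) (h1 : Y ζ / ζ - Y z / z ≠ 0) (h2 : z + ζ ≠ 0) :
    Real.exp (A z).re = ‖Y ζ / ζ + Y z / z‖ * ‖z - ζ‖ / (‖Y ζ / ζ - Y z / z‖ * ‖z + ζ‖) := by
  have e := h.eq z hz
  have e1 : Y ζ * z - Y z * ζ = (Y ζ / ζ - Y z / z) * (ζ * z) := by
    field_simp
  have e2 : Y ζ * z + Y z * ζ = (Y ζ / ζ + Y z / z) * (ζ * z) := by
    field_simp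
  rw [e1, e2] at e
  have e3 := congrArg (fun w => ‖w‖) e
  simp only [norm_mul] at e3
  rw [Complex.norm_exp] at e3
  have p1 : 0 < ‖Y ζ / ζ - Y z / z‖ := norm_pos_iff.2 h1
  have p2 : 0 < ‖z + ζ‖ := norm_pos_iff.2 h2
  have p3 : 0 < ‖ζ‖ * ‖z‖ := mul_pos (norm_pos_iff.2 hζ0) (norm_pos_iff.2 hz0)
  rw [eq_div_iff (mul_pos p1 p2).ne']
  have e4 : (‖ζ‖ * ‖z‖) * (Real.exp (A z).re * (‖Y ζ / ζ - Y z / z‖ * ‖z + ζ‖)) =
      (‖ζ‖ * ‖z‖) * (‖Y ζ / ζ + Y z / z‖ * ‖z - ζ‖) := by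
    linear_combination e3
  exact mul_left_cancel₀ p3.ne' e4

theorem taskE2 : TaskE2 := by
  intro hD hE Y hY ζ hζ hre him
  have hζ0 : ζ ≠ 0 := by
    rintro rfl; simp at hre
  have hn : ‖ζ‖ < 1 := by simpa using hζ
  set ζ' : ℂ := (starRingEnd ℂ) ζ with hζ'
  have hn' : ‖ζ'‖ = ‖ζ‖ := by rw [hζ']; exact Complex.norm_conj ζ
  have hζ'b : ζ' ∈ ball (0 : ℂ) 1 := by
    rw [mem_ball_zero_iff, hn']; exact hn
  have hζ'0 : ζ' ≠ 0 := by
    rw [← norm_pos_iff, hn']; exact norm_pos_iff.2 hζ0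
  obtain ⟨A₁, hA₁⟩ := hD Y hY ζ hζ hζ0
  obtain ⟨A₂, hA₂⟩ := hD Y hY ζ' hζ'b hζ'0
  have hE' := hE Y hY ζ A₁ A₂ hζ0 hn hA₁ hA₂
  rw [← hζ'] at hE'
  -- nonvanishing
  have hne : Y ζ / ζ - Y ζ' / ζ' ≠ 0 := by
    intro h
    have h1 := hY.inj ⟨hζ, by simpa using hζ0⟩ ⟨hζ'b, by simpa using hζ'0⟩ (sub_eq_zero.1 h)
    have h2 := congrArg Complex.im h1
    rw [hζ', Complex.conj_im] at h2
    apply him
    linarith
  have hne2 : Y ζ / ζ + Y ζ' / ζ' ≠ 0 := by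
    intro h
    have hm : -ζ' ∈ ball (0 : ℂ) 1 := by simpa using hζ'b
    have h0 : Y ζ / ζ = Y (-ζ') / (-ζ') := by
      rw [hY.even ζ' hζ'b, div_neg]
      exact eq_neg_of_add_eq_zero_left h
    have h1 := hY.inj ⟨hζ, by simpa using hζ0⟩ ⟨hm, by simpa using hζ'0⟩ h0
    have h2 := congrArg Complex.re h1
    rw [Complex.neg_re, hζ', Complex.conj_re] at h2
    apply hre
    linarith
  have hadd : ζ' + ζ = ((2 * ζ.re : ℝ) : ℂ) := by
    rw [hζ']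
    apply Complex.ext
    · simp; ring
    · simp
  have hsub : ζ' - ζ = ((-2 * ζ.im : ℝ) : ℂ) * I := by
    rw [hζ']
    apply Complex.ext
    · simp
    · simp; ring
  have nadd : ‖ζ' + ζ‖ = 2 * |ζ.re| := by
    rw [hadd, Complex.norm_real, Real.norm_eq_abs, abs_mul, abs_two]
  have nsub : ‖ζ' - ζ‖ = 2 * |ζ.im| := by
    rw [hsub, norm_mul, Complex.norm_I, mul_one, Complex.norm_real, Real.norm_eq_abs, abs_mul]
    norm_num
  have hpre : 0 < |ζ.re| := abs_pos.2 hre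
  have hpim : 0 < |ζ.im| := abs_pos.2 him
  have hadd0 : ζ' + ζ ≠ 0 := by
    rw [← norm_pos_iff, nadd]; positivity
  have pE1 : 0 < ‖Y ζ / ζ - Y ζ' / ζ'‖ := norm_pos_iff.2 hne
  have pE2 : 0 < ‖Y ζ / ζ + Y ζ' / ζ'‖ := norm_pos_iff.2 hne2
  set E : ℝ := ‖Y ζ / ζ + Y ζ' / ζ'‖ * |ζ.im| / (‖Y ζ / ζ - Y ζ' / ζ'‖ * |ζ.re|) with hEdef
  have hEpos : 0 < E := by positivity
  have l1 : (A₁ ζ').re = Real.log E := by
    have h := logE hA₁ hζ'b hζ'0 hζ0 hne hadd0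
    rw [nadd, nsub] at h
    have : Real.exp (A₁ ζ').re = E := by
      rw [h, hEdef]
      field_simp
    rw [← this, Real.log_exp]
  have l2 : (A₂ ζ).re = Real.log E := by
    have hne' : Y ζ' / ζ' - Y ζ / ζ ≠ 0 := by
      rw [← neg_ne_zero, neg_sub]; exact hne
    have h := logE hA₂ hζ hζ0 hζ'0 hne' (by rw [add_comm]; exact hadd0)
    rw [add_comm ζ ζ', nadd, norm_sub_rev ζ ζ', nsub, norm_sub_rev (Y ζ' / ζ') (Y ζ / ζ),
      add_comm (Y ζ' / ζ') (Y ζ / ζ)] at h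
    have : Real.exp (A₂ ζ).re = E := by
      rw [h, hEdef]
      field_simp
    rw [← this, Real.log_exp]
  set SR : ℝ := ∑' k : ℕ, if Odd k then (ζ ^ k).re ^ 2 / (k : ℝ) else 0 with hSR
  set SI : ℝ := ∑' k : ℕ, if Odd k then (ζ ^ k).im ^ 2 / (k : ℝ) else 0 with hSI
  have hS : SR + SI = (Real.log (1 + ‖ζ‖ ^ 2) - Real.log (1 - ‖ζ‖ ^ 2)) / 2 := sum_both ζ hn
  set U : ℂ := hh Y ζ + (starRingEnd ℂ) (hh Y ζ') with hU
  have hUre : U.re = (hh Y ζ).re + (hh Y ζ').re := by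
    rw [hU, Complex.add_re, Complex.conj_re]
  have hUim : U.im = (hh Y ζ).im - (hh Y ζ').im := by
    rw [hU, Complex.add_im, Complex.conj_im]; ring
  -- real direction
  have hR : ∀ s : ℝ, 0 ≤ ep Y / 2 * (s * s) + 2 * U.re * s +
      (4 * SR + ((A₁ ζ).re + (A₂ ζ).re + (A₁ ζ').re + (A₂ ζ').re) / 2) := by
    intro s
    have h := hE' s ((1 / 2 : ℝ) : ℂ)
    have e1 : (∑' k : ℕ, if Odd k then (2 * (((1 / 2 : ℝ) : ℂ) * ζ ^ k).re) ^ 2 / (k : ℝ) else 0) =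
        SR := by
      rw [hSR]
      apply tsum_congr
      intro k
      have : (2 * (((1 / 2 : ℝ) : ℂ) * ζ ^ k).re) = (ζ ^ k).re := by
        rw [Complex.re_ofReal_mul]; ring
      rw [this]
    rw [e1, Complex.conj_ofReal] at h
    simp only [sq, Complex.add_re, Complex.mul_re, Complex.mul_im, Complex.add_im,
      Complex.ofReal_re, Complex.ofReal_im] at h
    rw [hUre]
    linarith
  -- imaginary direction
  have hI : ∀ s : ℝ, 0 ≤ ep Y / 2 * (s * s) + 2 * U.im * s +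
      (4 * SI + (-(A₁ ζ).re + (A₂ ζ).re + (A₁ ζ').re - (A₂ ζ').re) / 2) := by
    intro s
    have h := hE' s (((-(1 / 2) : ℝ) : ℂ) * I)
    have e1 : (∑' k : ℕ, if Odd k then (2 * ((((-(1 / 2) : ℝ) : ℂ) * I) * ζ ^ k).re) ^ 2 / (k : ℝ)
        else 0) = SI := by
      rw [hSI]
      apply tsum_congr
      intro k
      have : (2 * ((((-(1 / 2) : ℝ) : ℂ) * I) * ζ ^ k).re) = (ζ ^ k).im := by
        rw [mul_assoc, Complex.re_ofReal_mul, Complex.I_mul_re]; ring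
      rw [this]
    rw [e1] at h
    simp only [sq, map_mul, Complex.conj_ofReal, Complex.conj_I, Complex.add_re, Complex.mul_re,
      Complex.mul_im, Complex.add_im, Complex.neg_re, Complex.neg_im, Complex.I_re, Complex.I_im,
      Complex.ofReal_re, Complex.ofReal_im] at h
    rw [hUim]
    linarith
  have dR := discrim_le_zero hR
  have dI := discrim_le_zero hI
  unfold discrim at dR dI
  have hU2 : ‖U‖ ^ 2 = U.re ^ 2 + U.im ^ 2 := by
    rw [← Complex.normSq_eq_norm_sq, Complex.normSq_apply]; ring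
  have hr2 : ‖ζ‖ ^ 2 < 1 := by
    have := norm_nonneg ζ
    nlinarith
  have hq : 0 < (1 + ‖ζ‖ ^ 2) / (1 - ‖ζ‖ ^ 2) := by
    apply div_pos
    · positivity
    · linarith
  rw [hU2, Real.log_mul hq.ne' hEpos.ne', Real.log_div (by positivity) (by linarith)]
  have hS' : Real.log (1 + ‖ζ‖ ^ 2) - Real.log (1 - ‖ζ‖ ^ 2) = 2 * (SR + SI) := by
    rw [hS]; ring
  rw [hS']
  rw [l1, l2] at dR dI
  nlinarith

end Pool.Agent.H245R3.BomE2
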