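import Pool.Agent.H111R5.CP.Stmts

set_option autoImplicit false

open MeasureTheory ProbabilityTheory Filter Finset

namespace Pool.Agent.H245R3.CPGE

open Pool.Agent.H111R5.CP

/-- the part of `s` in the slice `n` -/
def sl (s : Finset (ℕ × (Fin 3 → ℤ))) (n : ℕ) : Finset (Fin 3 → ℤ) :=
  (s.filter (fun i => i.1 = n)).image Prod.snd

lemma sum_sl (s : Finset (ℕ × (Fin 3 → ℤ))) (n : ℕ) (F : ℕ × (Fin 3 → ℤ) → ℝ) :
    ∑ i ∈ s.filter (fun i => i.1 = n), F i = ∑ x ∈ sl s n, F (n, x) := by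
  unfold sl
  rw [Finset.sum_image]
  · apply Finset.sum_congr rfl
    intro i hi
    have := (Finset.mem_filter.1 hi).2
    rw [← this]
  · intro i hi j hj h
    have h1 := (Finset.mem_filter.1 (Finset.mem_coe.1 hi)).2
    have h2 := (Finset.mem_filter.1 (Finset.mem_coe.1 hj)).2
    exact Prod.ext (h1.trans h2.symm) h

lemma sum_slices (s : Finset (ℕ × (Fin 3 → ℤ))) (F : ℕ × (Fin 3 → ℤ) → ℝ) :
    ∑ i ∈ s, F i = ∑ n ∈ s.image Prod.fst, ∑ x ∈ sl s n, F (n, x) := by
  rw [← Finset.sum_fiberwise_of_maps_to (s := s) (t := s.image Prod.fst) (g := Prod.fst)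
    (fun i hi => Finset.mem_image_of_mem _ hi)]
  exact Finset.sum_congr rfl fun n _ => sum_sl s n F

lemma sum_double (s : Finset (ℕ × (Fin 3 → ℤ))) (a : ℕ × (Fin 3 → ℤ) → ℝ)
    (c : (Fin 3 → ℤ) → (Fin 3 → ℤ) → ℝ) :
    ∑ i ∈ s, ∑ j ∈ s, a i * a j * (if i.1 = j.1 then c i.2 j.2 else 0) =
      ∑ n ∈ s.image Prod.fst, ∑ x ∈ sl s n, ∑ y ∈ sl s n, a (n, x) * a (n, y) * c x y := by
  rw [sum_slices]
  apply Finset.sum_congr rfl
  intro n _
  apply Finset.sum_congr rfl
  intro x _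
  rw [← sum_sl s n (fun j => a (n, x) * a j * c x j.2), Finset.sum_filter]
  apply Finset.sum_congr rfl
  intro j _
  by_cases h : n = j.1
  · simp [h]
  · have h' : ¬ j.1 = n := fun e => h e.symm
    simp [h, h']

theorem taskGE : TaskGE := by
  intro μ c hμ hG hc s a
  -- the contribution of the slice `n`
  let f : ℕ → ((Fin 3 → ℤ) → ℝ) → ℝ := fun n v => ∑ x ∈ sl s n, a (n, x) * v x
  have hf : ∀ n, Measurable (f n) := fun n => by
    simp only [f]
    fun_prop
  let X : ℕ → (ℕ → (Fin 3 → ℤ) → ℝ) → ℝ := fun n w => f n (w n)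
  have hX : ∀ n, Measurable (X n) := fun n => (hf n).comp (measurable_pi_apply n)
  let q : ℕ → ℝ := fun n => ∑ x ∈ sl s n, ∑ y ∈ sl s n, a (n, x) * a (n, y) * c x y
  have hq : ∀ n, 0 ≤ q n := fun n => hc (sl s n) (fun x => a (n, x))
  have hind : iIndepFun X (PP μ) := iIndepFun_infinitePi (P := fun _ : ℕ => μ) hf
  have hlaw : ∀ n, (PP μ).map (X n) = gaussianReal 0 (Real.toNNReal (q n)) := by
    intro n
    have h1 : (PP μ).map (X n) = ((PP μ).map (fun w => w n)).map (f n) := by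
      rw [Measure.map_map (hf n) (measurable_pi_apply n)]
      rfl
    have h2 : (PP μ).map (fun w => w n) = μ :=
      (measurePreserving_eval_infinitePi (fun _ : ℕ => μ) n).map_eq
    rw [h1, h2]
    exact hG (sl s n) (fun x => a (n, x))
  have hsum : ∀ T : Finset ℕ, (PP μ).map (∑ n ∈ T, X n) =
      gaussianReal 0 (∑ n ∈ T, Real.toNNReal (q n)) := by
    intro T
    induction T using Finset.induction_on with
    | empty =>
      have : IsProbabilityMeasure (PP μ) := by unfold PP; infer_instance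
      simp only [Finset.sum_empty, gaussianReal_zero_var]
      have h0 : (0 : (ℕ → (Fin 3 → ℤ) → ℝ) → ℝ) = fun _ => (0 : ℝ) := rfl
      rw [h0, Measure.map_const, measure_univ, one_smul]
    | insert n T hn ih =>
      rw [Finset.sum_insert hn, Finset.sum_insert hn]
      have h := gaussianReal_add_gaussianReal_of_indepFun
        (hind.indepFun_finsetSum_of_notMem hX hn).symm (hlaw n) ih
      rw [h, add_zero]
  have hmap : (fun w : ℕ → (Fin 3 → ℤ) → ℝ => ∑ i ∈ s, a i * w i.1 i.2) =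
      ∑ n ∈ s.image Prod.fst, X n := by
    funext w
    rw [sum_slices s (fun i => a i * w i.1 i.2), Finset.sum_apply]
  rw [hmap, hsum, sum_double, Real.toNNReal_sum_of_nonneg (fun n _ => hq n)]

end Pool.Agent.H245R3.CPGE
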