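import Pool.Agent.H329R3.PM.Stmts

set_option autoImplicit false

open MeasureTheory Set Filter Topology

namespace Pool.Agent.H245R3.PMMix

open Pool.Agent.H329R3.PM

/-- the algebraic identity behind the kernel for `r` small -/
lemma alg (p q : ℝ) (hp : 0 < p) (hq : 0 < q) (hpq : q < p) :
    (p ^ 2 + q ^ 2) / 2 * (p - q - (p ^ 2 - q ^ 2) / 2 / 2 * (1 / p + 1 / q)) /
      ((p ^ 2 - q ^ 2) / 2) ^ 3 = -2 * ((p ^ 2 + q ^ 2) / 2) / (p * q * (p + q) ^ 3) := by
  have h1 : p - q ≠ 0 := by linarith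
  have h2 : p + q ≠ 0 := by positivity
  have h3 : p ^ 2 - q ^ 2 ≠ 0 := by
    have : p ^ 2 - q ^ 2 = (p - q) * (p + q) := by ring
    rw [this]
    exact mul_ne_zero h1 h2
  have hp' := hp.ne'
  have hq' := hq.ne'
  rw [div_eq_div_iff (pow_ne_zero _ (div_ne_zero h3 two_ne_zero))
    (mul_ne_zero (mul_ne_zero hp' hq') (pow_ne_zero _ h2))]
  field_simp
  ring

lemma kk_small {a r y : ℝ} (ha : 0 < a) (hr : 0 < r) (hra : r ≤ a / 2) (hy : a < y) :
    kk r y = -2 * y / (√(r + y) * √(y - r) * (√(r + y) + √(y - r)) ^ 3) := by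
  have h1 : 0 < r + y := by linarith
  have h2 : 0 < y - r := by linarith
  set p := √(r + y) with hp
  set q := √(y - r) with hq
  have hp0 : 0 < p := Real.sqrt_pos.2 h1
  have hq0 : 0 < q := Real.sqrt_pos.2 h2
  have hp2 : p ^ 2 = r + y := Real.sq_sqrt h1.le
  have hq2 : q ^ 2 = y - r := Real.sq_sqrt h2.le
  have hqp : q < p := by
    apply Real.sqrt_lt_sqrt h2.le
    linarith
  have hr' : r = (p ^ 2 - q ^ 2) / 2 := by rw [hp2, hq2]; ring
  have hy' : y = (p ^ 2 + q ^ 2) / 2 := by rw [hp2, hq2]; ring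
  have habs : |r - y| = q ^ 2 := by
    rw [abs_of_neg (by linarith), hq2]; ring
  have hsq : √|r - y| = q := by
    rw [habs, Real.sqrt_sq hq0.le]
  have hsg : sg (r - y) = -(1 / q) := by
    unfold sg
    rw [hsq, habs]
    have : r - y = -(q ^ 2) := by rw [hq2]; ring
    rw [this]
    field_simp
  unfold kk kap
  rw [hsg, hsq, ← hp]
  have e := alg p q hp0 hq0 hqp
  have e1 : y * (p - q - r / 2 * (1 / p - -(1 / q))) / r ^ 3 =
      (p ^ 2 + q ^ 2) / 2 * (p - q - (p ^ 2 - q ^ 2) / 2 / 2 * (1 / p + 1 / q)) /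
      ((p ^ 2 - q ^ 2) / 2) ^ 3 := by
    rw [← hr', ← hy', sub_neg_eq_add]
  rw [e1, e, ← hy']

lemma cont1 {a : ℝ} (ha : 0 < a) : ContinuousOn (fun p : ℝ × ℝ =>
    -2 * p.2 / (√(p.1 + p.2) * √(p.2 - p.1) * (√(p.1 + p.2) + √(p.2 - p.1)) ^ 3))
    (Icc 0 (a / 2) ×ˢ Icc a 1) := by
  apply ContinuousOn.div
  · fun_prop
  · fun_prop
  · rintro ⟨r, y⟩ ⟨⟨hr0, hr⟩, ⟨hy, _⟩⟩
    simp only at hr0 hr hy ⊢
    have h1 : 0 < √(r + y) := Real.sqrt_pos.2 (by linarith)
    have h2 : 0 < √(y - r) := Real.sqrt_pos.2 (by linarith)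
    positivity

lemma cont2 {a : ℝ} (ha : 0 < a) (g : ℝ → ℝ) (hg : Continuous g) : ContinuousOn (fun p : ℝ × ℝ =>
    p.2 * (√(p.1 + p.2) - √|p.1 - p.2| - p.1 / 2 * (1 / √(p.1 + p.2) - g (p.1 - p.2))) / p.1 ^ 3)
    (Icc (a / 2) 1 ×ˢ Icc a 1) := by
  apply ContinuousOn.div
  · apply ContinuousOn.mul (by fun_prop)
    apply ContinuousOn.sub (by fun_prop)
    apply ContinuousOn.mul (by fun_prop)
    apply ContinuousOn.sub
    · apply ContinuousOn.div (by fun_prop) (by fun_prop)
      rintro ⟨r, y⟩ ⟨⟨hr0, hr⟩, ⟨hy, _⟩⟩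
      simp only at hr0 hr hy ⊢
      exact (Real.sqrt_pos.2 (by linarith)).ne'
    · exact (hg.comp (by fun_prop)).continuousOn
  · fun_prop
  · rintro ⟨r, y⟩ ⟨⟨hr0, hr⟩, ⟨hy, _⟩⟩
    simp only at hr0 hr hy ⊢
    have : 0 < r := by linarith
    positivity

lemma sg_int (h : ∀ r : ℝ, IntegrableOn (fun y => sg (r - y)) (Ioc (0 : ℝ) 1)) (r : ℝ) :
    IntegrableOn sg (Ico (r - 1) r) := by
  have hmp : MeasurePreserving (fun y : ℝ => r - y) volume volume :=
    Measure.measurePreserving_sub_left volume r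
  have hemb : MeasurableEmbedding (fun y : ℝ => r - y) :=
    (MeasurableEquiv.subLeft r).measurableEmbedding
  rw [← hmp.integrableOn_comp_preimage hemb]
  have : (fun y : ℝ => r - y) ⁻¹' (Ico (r - 1) r) = Ioc 0 1 := by
    ext y
    simp only [mem_preimage, mem_Ico, mem_Ioc]
    constructor
    · rintro ⟨h1, h2⟩; exact ⟨by linarith, by linarith⟩
    · rintro ⟨h1, h2⟩; exact ⟨by linarith, by linarith⟩
  rw [this]
  exact h r

theorem taskMix : TaskMix := by
  intro hA hK a ha δ hδ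
  obtain ⟨-, hsg, -⟩ := hK
  have ha0 : 0 < a := ha.1
  have ha1 : a < 1 := ha.2
  -- small `r`
  obtain ⟨n₁, h₁⟩ := hA a δ (Icc 0 (a / 2)) kk
    (fun r y => -2 * y / (√(r + y) * √(y - r) * (√(r + y) + √(y - r)) ^ 3)) (fun _ _ => 0)
    ha hδ isCompact_Icc (cont1 ha0)
    (by
      intro r _ _
      refine ⟨integrableOn_zero, ?_⟩
      simp
      positivity)
    (by
      intro r hr hr0 y hy
      rw [add_zero]
      exact kk_small ha0 hr0 hr.2 hy.1)
  -- approximation of `sg`
  have hF : Integrable (indicator (Ico (-1) 1) sg) := by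
    rw [integrable_indicator_iff measurableSet_Ico]
    have h0 := sg_int hsg 0
    have h1 := sg_int hsg 1
    have : Ico (-1 : ℝ) 1 = Ico (0 - 1) 0 ∪ Ico (1 - 1) 1 := by
      ext x
      simp only [mem_Ico, mem_union]
      constructor
      · rintro ⟨h2, h3⟩
        rcases lt_or_ge x 0 with h | h
        · left; exact ⟨by linarith, h⟩
        · right; exact ⟨by linarith, h3⟩
      · rintro (⟨h2, h3⟩ | ⟨h2, h3⟩)
        · exact ⟨by linarith, by linarith⟩
        · exact ⟨by linarith, by linarith⟩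
    rw [this]
    exact h0.union h1
  obtain ⟨g, -, hgle, hgc, hgi⟩ := hF.exists_hasCompactSupport_integral_sub_le
    (ε := a ^ 2 * δ / 4) (by positivity)
  set F := indicator (Ico (-1 : ℝ) 1) sg with hFdef
  have hFeq : ∀ r ∈ Icc (a / 2) 1, ∀ y ∈ Ioc a 1, F (r - y) = sg (r - y) := by
    intro r hr y hy
    rw [hFdef, indicator_of_mem]
    exact ⟨by linarith [hr.1, hy.2], by linarith [hr.2, hy.1]⟩
  have hint : ∀ r : ℝ, Integrable (fun y => F (r - y) - g (r - y)) := by
    intro r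
    exact (hF.sub hgi).comp_sub_left r
  obtain ⟨n₂, h₂⟩ := hA a δ (Icc (a / 2) 1) kk
    (fun r y => y * (√(r + y) - √|r - y| - r / 2 * (1 / √(r + y) - g (r - y))) / r ^ 3)
    (fun r y => (y / (2 * r ^ 2)) * (sg (r - y) - g (r - y)))
    ha hδ isCompact_Icc (cont2 ha0 g hgc)
    (by
      intro r hr hr0
      have hI : IntegrableOn (fun y => F (r - y) - g (r - y)) (Icc a 1) := (hint r).integrableOn
      have hI2 : IntegrableOn (fun y => (y / (2 * r ^ 2)) * (F (r - y) - g (r - y))) (Icc a 1) :=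
        hI.continuousOn_mul (by fun_prop) isCompact_Icc
      have hI3 : IntegrableOn (fun y => (y / (2 * r ^ 2)) * (F (r - y) - g (r - y))) (Ioc a 1) :=
        hI2.mono_set Ioc_subset_Icc_self
      have hcongr : EqOn (fun y => (y / (2 * r ^ 2)) * (F (r - y) - g (r - y)))
          (fun y => (y / (2 * r ^ 2)) * (sg (r - y) - g (r - y))) (Ioc a 1) := by
        intro y hy
        simp only
        rw [hFeq r hr y hy]
      refine ⟨hI3.congr_fun hcongr measurableSet_Ioc, ?_⟩
      have e1 : ∫ y in Ioc a 1, |(y / (2 * r ^ 2)) * (sg (r - y) - g (r - y))| =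
          ∫ y in Ioc a 1, |(y / (2 * r ^ 2)) * (F (r - y) - g (r - y))| := by
        apply setIntegral_congr_fun measurableSet_Ioc
        intro y hy
        simp only
        rw [hFeq r hr y hy]
      rw [e1]
      have hc : ∀ y ∈ Ioc a 1, |(y / (2 * r ^ 2)) * (F (r - y) - g (r - y))| ≤
          2 / a ^ 2 * ‖F (r - y) - g (r - y)‖ := by
        intro y hy
        rw [abs_mul, Real.norm_eq_abs]
        apply mul_le_mul_of_nonneg_right _ (abs_nonneg _)
        have hy0 : 0 < y := ha0.trans hy.1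
        rw [abs_of_nonneg (by positivity), div_le_div_iff₀ (by positivity) (by positivity)]
        have h3 : a / 2 ≤ r := hr.1
        have h4 : y ≤ 1 := hy.2
        nlinarith [mul_self_nonneg (r - a / 2), mul_nonneg ha0.le (sub_nonneg.2 h3)]
      calc ∫ y in Ioc a 1, |(y / (2 * r ^ 2)) * (F (r - y) - g (r - y))|
          ≤ ∫ y in Ioc a 1, 2 / a ^ 2 * ‖F (r - y) - g (r - y)‖ := by
            apply setIntegral_mono_on hI3.abs ((hint r).norm.const_mul _).integrableOn
              measurableSet_Ioc hc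
        _ ≤ ∫ y, 2 / a ^ 2 * ‖F (r - y) - g (r - y)‖ := by
            apply setIntegral_le_integral ((hint r).norm.const_mul _)
            filter_upwards with y
            positivity
        _ = 2 / a ^ 2 * ∫ z, ‖F z - g z‖ := by
            rw [integral_const_mul, integral_sub_left_eq_self (fun z => ‖F z - g z‖)]
        _ ≤ 2 / a ^ 2 * (a ^ 2 * δ / 4) := by
            apply mul_le_mul_of_nonneg_left hgle (by positivity)
        _ = δ / 2 := by
            field_simp
            ring)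
    (by
      intro r hr hr0 y hy
      unfold kk kap
      field_simp
      ring)
  refine ⟨max (max n₁ n₂) 1, by positivity, ?_⟩
  intro h hh r hr
  rcases le_or_gt r (a / 2) with hra | hra
  · exact h₁ _ ((le_max_left _ _).trans (le_max_left _ _)) (by positivity) h hh r
      ⟨hr.1.le, hra⟩ hr.1
  · exact h₂ _ ((le_max_right _ _).trans (le_max_left _ _)) (by positivity) h hh r
      ⟨hra.le, hr.2⟩ hr.1

end Pool.Agent.H245R3.PMMix
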