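import Mathlib
import Pool.Agent.H39R3.PB.Basic
import Pool.Agent.H944R3.PB_T1

/-! # Task SA of the project H39-PAL5: the exact second moment of one block, general base
(port of `Pool.Agent.H985R2.PalT9a`) -/

set_option autoImplicit false

namespace Pool.Agent.H245R3.PSSA

open Finset Pool.Agent.Helper112 Pool.Agent.H39R3.PB Pool.Agent.H944R3.PB

/-- orthogonality -/
lemma orth (M : ℕ) (hM : 0 < M) (k : ℤ) :
    ∑ a ∈ range M, ee ((k : ℝ) * ((a : ℝ) / M)) = if (M : ℤ) ∣ k then (M : ℂ) else 0 := by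
  have hM0 : (M : ℝ) ≠ 0 := by exact_mod_cast hM.ne'
  have h1 : ∀ a : ℕ, ee ((k : ℝ) * ((a : ℝ) / M)) = ee ((k : ℝ) / M) ^ a := by
    intro a
    rw [← ls_ee_nat_mul]
    congr 1
    field_simp
  simp only [h1]
  split_ifs with h
  · obtain ⟨l, rfl⟩ := h
    have : ((((M : ℤ) * l : ℤ) : ℝ) / M) = ((l : ℤ) : ℝ) := by
      push_cast; field_simp
    rw [this, ls_ee_int]
    simp
  · have hne : ee ((k : ℝ) / M) ≠ 1 := by
      intro he
      obtain ⟨n, hn⟩ := ls_ee_eq_one he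
      apply h
      rw [div_eq_iff hM0] at hn
      refine ⟨n, ?_⟩
      have : (k : ℝ) = ((n * M : ℤ) : ℝ) := by push_cast; exact hn
      have h3 : k = n * M := by exact_mod_cast this
      rw [h3]; ring
    have hp : ee ((k : ℝ) / M) ^ M = 1 := by
      rw [← ls_ee_nat_mul]
      have : (M : ℝ) * ((k : ℝ) / M) = ((k : ℤ) : ℝ) := by field_simp
      rw [this, ls_ee_int]
    have := geom_sum_mul (ee ((k : ℝ) / M)) M
    rw [hp, sub_self] at this
    rcases mul_eq_zero.1 this with h4 | h4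
    · exact h4
    · exact absurd (sub_eq_zero.1 h4) hne

open Classical in
/-- Parseval modulo `M` -/
lemma pars {ι : Type} (P : Finset ι) (M : ℕ) (hM : 0 < M) (W : ι → ℝ) (n : ι → ℕ) :
    ∑ a ∈ range M, ‖∑ i ∈ P, (W i : ℂ) * ee ((n i : ℝ) * ((a : ℝ) / M))‖ ^ 2 =
      M * ∑ i ∈ P, ∑ j ∈ P, if (M : ℤ) ∣ (n i : ℤ) - n j then W i * W j else 0 := by
  have key : ∀ a : ℕ, ((‖∑ i ∈ P, (W i : ℂ) * ee ((n i : ℝ) * ((a : ℝ) / M))‖ ^ 2 : ℝ) : ℂ) =
      ∑ i ∈ P, ∑ j ∈ P, (W i * W j : ℂ) * ee ((((n i : ℤ) - n j : ℤ) : ℝ) * ((a : ℝ) / M)) := by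
    intro a
    have h1 := Complex.mul_conj (∑ i ∈ P, (W i : ℂ) * ee ((n i : ℝ) * ((a : ℝ) / M)))
    rw [Complex.normSq_eq_norm_sq] at h1
    rw [← h1, map_sum, Finset.sum_mul_sum]
    refine Finset.sum_congr rfl fun i _ => Finset.sum_congr rfl fun j _ => ?_
    rw [map_mul, ls_conj_ee, Complex.conj_ofReal]
    have h2 : (((n i : ℤ) - n j : ℤ) : ℝ) * ((a : ℝ) / M) =
        (n i : ℝ) * ((a : ℝ) / M) + -((n j : ℝ) * ((a : ℝ) / M)) := by push_cast; ring
    rw [h2, ls_ee_add]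
    ring
  have h3 : ((∑ a ∈ range M, ‖∑ i ∈ P, (W i : ℂ) * ee ((n i : ℝ) * ((a : ℝ) / M))‖ ^ 2 : ℝ) : ℂ) =
      ((M * ∑ i ∈ P, ∑ j ∈ P, if (M : ℤ) ∣ (n i : ℤ) - n j then W i * W j else 0 : ℝ) : ℂ) := by
    push_cast
    push_cast at key
    rw [Finset.sum_congr rfl fun a _ => key a]
    rw [Finset.sum_comm]
    rw [Finset.mul_sum]
    refine Finset.sum_congr rfl fun i _ => ?_
    rw [Finset.sum_comm, Finset.mul_sum]
    refine Finset.sum_congr rfl fun j _ => ?_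
    rw [← Finset.mul_sum]
    have h4 := orth M hM ((n i : ℤ) - n j)
    push_cast at h4
    rw [h4]
    split_ifs
    · push_cast; ring
    · push_cast; ring
  exact_mod_cast h3

/-- multiplication by `b ^ k` permutes the residues -/
lemma dilate_all {b q : ℕ} (hq : q.Coprime b) (k : ℕ) (f : ℝ → ℝ)
    (hf : ∀ (x : ℝ) (n : ℤ), f (x + n) = f x) :
    ∑ a ∈ range q, f ((b : ℝ) ^ k * ((a : ℝ) / q)) = ∑ a ∈ range q, f ((a : ℝ) / q) := by
  rcases Nat.eq_zero_or_pos q with h0 | h0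
  · subst h0; simp
  have hcop : (b ^ k).Coprime q := (hq.symm.pow_left k)
  rw [← sum_perm_image (s := range q) (fun a => (b ^ k * a) % q) ?_ ?_
    (fun a => f ((a : ℝ) / q))]
  · exact sum_congr rfl fun a _ => dilate_step h0 k a f hf
  · intro a ha
    rw [mem_range] at ha ⊢
    exact Nat.mod_lt _ h0
  · intro a ha c hc hab
    rw [mem_range] at ha hc
    have h1 : b ^ k * a ≡ b ^ k * c [MOD q] := hab
    have h2 : a ≡ c [MOD q] := Nat.ModEq.cancel_left_of_coprime (by rw [Nat.gcd_comm]; exact hcop) h1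
    rwa [Nat.ModEq, Nat.mod_eq_of_lt ha, Nat.mod_eq_of_lt hc] at h2

/-- the sum of the block over all fractions with denominator `m` -/
lemma block_sum (b : ℕ) (hb : 2 ≤ b) (L K J m : ℕ) (hK : K ≤ J) (hJ : 1 ≤ J) (hJL : J ≤ L)
    (hM : b ^ (2 * J) ≤ m) (hc : m.Coprime b) :
    ∑ a ∈ range m, (Ps b L 0 K ((a : ℝ) / m) ^ 4 * Ps b L K (J - K) ((a : ℝ) / m) ^ 2) =
      m * ((EE b / (b : ℝ) ^ 3) ^ K / (b : ℝ) ^ J) := by
  classical
  have hb0 : 0 < b := by omega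
  have hbR : (0 : ℝ) < b := by exact_mod_cast hb0
  have hm0 : 0 < m := lt_of_lt_of_le (by positivity) hM
  obtain ⟨M, rfl⟩ : ∃ M, J = M + 1 := ⟨J - 1, by omega⟩
  set F : ℝ → ℝ := fun x => Ps b M 0 K x ^ 4 * Ps b M K (M + 1 - K) x ^ 2 with hF
  have hper : ∀ (x : ℝ) (n : ℤ), F (x + n) = F x := by
    intro x n
    simp only [hF, Ps_add_int]
  have e1 : ∑ a ∈ range m, (Ps b L 0 K ((a : ℝ) / m) ^ 4 * Ps b L K (M + 1 - K) ((a : ℝ) / m) ^ 2) =
      ∑ a ∈ range m, F ((a : ℝ) / m) := by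
    rw [← dilate_all hc (L - M) F hper]
    apply sum_congr rfl
    intro a _
    simp only [hF]
    rw [Ps_scale (L := L) (M := M) (A := 0) (J := K) (by omega) (by omega),
      Ps_scale (L := L) (M := M) (A := K) (J := M + 1 - K) (by omega) (by omega)]
  rw [e1]
  set P := Fintype.piFinset (fun c : Fin (M + 1) => range (RR b K c)) with hP
  set W : (Fin (M + 1) → ℕ) → ℝ := fun s => ((∏ c : Fin (M + 1), ww b K c (s c) : ℕ) : ℝ) with hW
  have hs18 : ∀ s ∈ P, ∀ c, s c ≤ 2 * (b - 1) := by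
    intro s hs c
    rw [hP, Fintype.mem_piFinset] at hs
    exact RR_le b hb K c _ (hs c)
  have e2 : ∑ a ∈ range m, F ((a : ℝ) / m) =
      (∑ a ∈ range m, ‖∑ s ∈ P, (W s : ℂ) * ee ((nn b M s : ℝ) * ((a : ℝ) / m))‖ ^ 2) /
        ((b : ℝ) ^ (4 * K) * (b : ℝ) ^ (2 * (M + 1 - K))) := by
    rw [sum_div]
    apply sum_congr rfl
    intro a _
    simp only [hF]
    rw [block_eq b hb M K hK, SS_expand b (by omega)]
    simp only [hW, hP, Complex.ofReal_natCast]
  rw [e2, pars P m hm0 W (fun s => nn b M s)]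
  have hlt : ∀ s ∈ P, nn b M s < m := by
    intro s hs
    have h1 := nn_le b hb M s (hs18 s hs)
    have h2 : 2 * b ^ (2 * M + 1) ≤ b ^ (2 * (M + 1)) := by
      have : b ^ (2 * (M + 1)) = b * b ^ (2 * M + 1) := by ring
      rw [this]
      exact Nat.mul_le_mul_right _ hb
    omega
  have e3 : ∑ s ∈ P, ∑ t ∈ P, (if (m : ℤ) ∣ ((nn b M s : ℕ) : ℤ) - ((nn b M t : ℕ) : ℤ)
      then W s * W t else 0) = ∑ s ∈ P, W s ^ 2 := by
    apply sum_congr rfl
    intro s hs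
    have h1 : ∀ t ∈ P, (if (m : ℤ) ∣ ((nn b M s : ℕ) : ℤ) - ((nn b M t : ℕ) : ℤ)
        then W s * W t else 0) = if s = t then W s * W t else 0 := by
      intro t ht
      have h2 : ((m : ℤ) ∣ ((nn b M s : ℕ) : ℤ) - ((nn b M t : ℕ) : ℤ)) ↔ s = t := by
        constructor
        · intro hd
          have h3 := hlt s hs
          have h4 := hlt t ht
          have h5 : ((nn b M s : ℕ) : ℤ) - ((nn b M t : ℕ) : ℤ) = 0 := by
            refine Int.eq_zero_of_abs_lt_dvd hd ?_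
            rw [abs_lt]
            constructor <;> omega
          exact nn_inj b hb M s t (hs18 s hs) (hs18 t ht) (by omega)
        · rintro rfl
          simp
      by_cases h6 : s = t
      · rw [if_pos h6, if_pos (h2.2 h6)]
      · rw [if_neg h6, if_neg (fun h => h6 (h2.1 h))]
    rw [sum_congr rfl h1, sum_ite_eq, if_pos hs, sq]
  rw [e3]
  have e4 : ∑ s ∈ P, W s ^ 2 = EE b ^ K * (b : ℝ) ^ (M + 1 - K) := by
    have h3 : ∀ s, W s ^ 2 = ∏ c : Fin (M + 1), ((ww b K c (s c) : ℝ)) ^ 2 := by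
      intro s
      rw [hW]
      simp only
      push_cast
      rw [← prod_pow]
    simp_rw [h3]
    rw [hP, ← prod_univ_sum (fun c : Fin (M + 1) => range (RR b K c))
      (fun c j => ((ww b K c j : ℝ)) ^ 2), ← prod_weights b M K hK]
    exact prod_congr rfl fun c _ => ww_sq b K c
  rw [e4]
  obtain ⟨R, hR⟩ := Nat.exists_eq_add_of_le hK
  have hR' : M + 1 - K = R := by omega
  rw [hR', hR, div_pow, ← pow_mul]
  have h5 : (b : ℝ) ≠ 0 := hbR.ne'
  field_simp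
  ring

end Pool.Agent.H245R3.PSSA
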