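import Pool.Agent.H85R3.VZ.Stmts

set_option autoImplicit false

namespace Pool.Agent.H245R3.VZF2

open SimpleGraph

/-- In the cycle graph, the vertices `a` and `a + d` are at distance at most `d`. -/
theorem edist_le (m a : ℕ) : ∀ (d : ℕ) (h : a + d < m),
    (cycleGraph m).edist ⟨a, by omega⟩ ⟨a + d, h⟩ ≤ (d : ℕ∞) := by
  intro d
  induction d with
  | zero =>
    intro h
    have e : (⟨a, by omega⟩ : Fin m) = ⟨a + 0, h⟩ := by
      apply Fin.ext
      simp
    rw [← e, SimpleGraph.edist_self]
    exact bot_le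
  | succ d ih =>
    intro h
    have h1 : a + d < m := by omega
    have hadj : (cycleGraph m).Adj ⟨a + d, h1⟩ ⟨a + (d + 1), h⟩ := by
      apply pathGraph_le_cycleGraph
      rw [pathGraph_adj]
      left
      simp only
      omega
    have h2 : (cycleGraph m).edist ⟨a + d, h1⟩ ⟨a + (d + 1), h⟩ ≤ (1 : ℕ∞) := by
      exact (SimpleGraph.edist_eq_one_iff_adj.2 hadj).le
    calc (cycleGraph m).edist ⟨a, by omega⟩ ⟨a + (d + 1), h⟩
        ≤ (cycleGraph m).edist ⟨a, by omega⟩ ⟨a + d, h1⟩
          + (cycleGraph m).edist ⟨a + d, h1⟩ ⟨a + (d + 1), h⟩ := SimpleGraph.edist_triangle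
      _ ≤ (d : ℕ∞) + 1 := add_le_add (ih h1) h2
      _ = ((d + 1 : ℕ) : ℕ∞) := by push_cast; rfl

/-- Distances between two vertices of the cycle graph, in terms of their labels. -/
theorem edist_le' (m k : ℕ) (u v : Fin m) (h1 : u.val ≤ v.val + k) (h2 : v.val ≤ u.val + k) :
    (cycleGraph m).edist u v ≤ (k : ℕ∞) := by
  rcases le_total u.val v.val with h | h
  · obtain ⟨d, hd⟩ := Nat.exists_eq_add_of_le h
    have hd' : u.val + d < m := hd ▸ v.isLt
    have e : v = ⟨u.val + d, hd'⟩ := Fin.ext hd
    have h3 := edist_le m u.val d hd'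
    have h4 : (cycleGraph m).edist u v ≤ (d : ℕ∞) := by
      rw [e]
      exact h3
    refine h4.trans ?_
    exact_mod_cast (by omega : d ≤ k)
  · obtain ⟨d, hd⟩ := Nat.exists_eq_add_of_le h
    have hd' : v.val + d < m := hd ▸ u.isLt
    have e : u = ⟨v.val + d, hd'⟩ := Fin.ext hd
    have h3 := edist_le m v.val d hd'
    have h4 : (cycleGraph m).edist u v ≤ (d : ℕ∞) := by
      rw [SimpleGraph.edist_comm, e]
      exact h3
    refine h4.trans ?_
    exact_mod_cast (by omega : d ≤ k)

/-- Upper bound for the `k`-domination number of the cycle. -/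
theorem taskF2 : Pool.Agent.H85R3.VZ.TaskF2 := by
  classical
  intro m k hm
  refine ⟨(Finset.range ((m - 1) / (2 * k + 1) + 1)).image
    (fun i => (⟨min (k + (2 * k + 1) * i) (m - 1), by omega⟩ : Fin m)), ?_, ?_⟩
  · refine Finset.card_image_le.trans ?_
    rw [Finset.card_range]
  · intro v
    refine ⟨⟨min (k + (2 * k + 1) * (v.val / (2 * k + 1))) (m - 1), by omega⟩, ?_, ?_⟩
    · rw [Finset.mem_image]
      refine ⟨v.val / (2 * k + 1), ?_, rfl⟩
      rw [Finset.mem_range]
      have : v.val / (2 * k + 1) ≤ (m - 1) / (2 * k + 1) :=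
        Nat.div_le_div_right (by have := v.isLt; omega)
      omega
    · have hv := v.isLt
      have h1 := Nat.div_add_mod v.val (2 * k + 1)
      have h2 := Nat.mod_lt v.val (by omega : 0 < 2 * k + 1)
      set q := (2 * k + 1) * (v.val / (2 * k + 1)) with hq
      apply edist_le'
      · simp only
        omega
      · simp only
        omega

end Pool.Agent.H245R3.VZF2
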